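import Pool.Agent.H560.SI.Stm

/-!
# Grouping the irreducible factors (task GRP of project SI, helper297)
-/

set_option autoImplicit false

namespace Pool.Agent.H297.SI

open Polynomial
open Pool.Agent.H560.SI

/-- a divisor of nearly prescribed degree -/
theorem piece {K : Type} [Field K] (y : ℕ) (h : K[X]) (hm : h.Monic) (hs : Smt y h) :
    ∀ d : ℕ, d ≤ h.natDegree → ∃ a b : K[X], a.Monic ∧ b.Monic ∧ h = a * b ∧
      d ≤ a.natDegree ∧ a.natDegree ≤ d + y := by
  intro d
  induction d with
  | zero =>
    intro _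
    exact ⟨1, h, monic_one, hm, (one_mul h).symm, Nat.zero_le _, by simp⟩
  | succ d ih =>
    intro hd
    obtain ⟨a, b, ha, hb, hab, h1, h2⟩ := ih (by omega)
    by_cases hc : d + 1 ≤ a.natDegree
    · exact ⟨a, b, ha, hb, hab, hc, by omega⟩
    · have had : a.natDegree = d := by omega
      have hdeg : h.natDegree = a.natDegree + b.natDegree := by
        rw [hab, ha.natDegree_mul hb]
      have hb1 : 1 ≤ b.natDegree := by omega
      have hbu : ¬ IsUnit b := by
        intro hu
        have := Polynomial.natDegree_eq_zero_of_isUnit hu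
        omega
      obtain ⟨P, hPm, hPi, hPd⟩ := Polynomial.exists_monic_irreducible_factor b hbu
      obtain ⟨c, hc'⟩ := hPd
      have hcm : c.Monic := by
        have : (P * c).Monic := hc' ▸ hb
        exact hPm.of_mul_monic_left this
      have hPy : P.natDegree ≤ y :=
        hs P hPm hPi (by rw [hab, hc']; exact Dvd.intro (a * c) (by ring))
      have hP1 : 1 ≤ P.natDegree := hPi.natDegree_pos
      refine ⟨a * P, c, ha.mul hPm, hcm, by rw [hab, hc']; ring, ?_, ?_⟩
      · rw [ha.natDegree_mul hPm]
        omega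
      · rw [ha.natDegree_mul hPm]
        omega

theorem group {K : Type} [Field K] (L y : ℕ) (hL : 4 * y + 4 ≤ L) (R : ℕ) :
    ∀ h : K[X], h.Monic → Smt y h → 2 * h.natDegree ≤ R * L →
      ∃ p : Fin (R + 1) → K[X], (∀ j, (p j).Monic) ∧ ∏ j, p j = h ∧
        (∀ j, (p j).natDegree + L / 4 ≤ L) ∧ (L ≤ 2 * h.natDegree → L ≤ 2 * (p 0).natDegree) := by
  induction R with
  | zero =>
    intro h hm _ hd
    have h0 : h.natDegree = 0 := by omega
    refine ⟨fun _ => h, fun _ => hm, by simp, fun _ => ?_, fun hh => hh⟩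
    rw [h0]
    omega
  | succ R ih =>
    intro h hm hs hd
    by_cases hc : L ≤ 2 * h.natDegree
    · obtain ⟨a, b, ha, hb, hab, h1, h2⟩ := piece y h hm hs ((L + 1) / 2) (by omega)
      have hdeg : h.natDegree = a.natDegree + b.natDegree := by
        rw [hab, ha.natDegree_mul hb]
      have hbs : Smt y b := fun P h1 h2 h3 => hs P h1 h2 (h3.trans (by rw [hab]; exact Dvd.intro_left a rfl))
      have hbd : 2 * b.natDegree ≤ R * L := by
        have : (R + 1) * L = R * L + L := by ring
        omega
      obtain ⟨p, p1, p2, p3, _⟩ := ih b hb hbs hbd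
      refine ⟨Fin.cons a p, ?_, ?_, ?_, fun _ => ?_⟩
      · intro j
        refine Fin.cases ?_ (fun i => ?_) j
        · rw [Fin.cons_zero]; exact ha
        · rw [Fin.cons_succ]; exact p1 i
      · rw [Fin.prod_cons, p2, hab]
      · intro j
        refine Fin.cases ?_ (fun i => ?_) j
        · rw [Fin.cons_zero]; omega
        · rw [Fin.cons_succ]; exact p3 i
      · rw [Fin.cons_zero]
        omega
    · refine ⟨Fin.cons h (fun _ => 1), ?_, ?_, ?_, fun hh => absurd hh hc⟩
      · intro j
        refine Fin.cases ?_ (fun i => ?_) j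
        · rw [Fin.cons_zero]; exact hm
        · rw [Fin.cons_succ]; exact monic_one
      · rw [Fin.prod_cons]
        simp
      · intro j
        refine Fin.cases ?_ (fun i => ?_) j
        · rw [Fin.cons_zero]; omega
        · rw [Fin.cons_succ, natDegree_one]; omega

/-- **Task GRP.** -/
theorem grp : S_grp := by
  intro K _ L R y h hm _ hs hL hd1 hd2
  obtain ⟨p, p1, p2, p3, p4⟩ := group L y hL R h hm hs hd2
  exact ⟨p, p1, p2, p3, p4 hd1⟩

end Pool.Agent.H297.SI
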